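import Mathlib

set_option autoImplicit false

namespace Pool.Agent.H.MP_fc2771_gt

open Set Filter Topology MeasureTheory

def R (p q : ℝ × ℝ) : Prop := p = q ∨ p.1 < q.1 ∧ p.2 ≤ q.2

lemma R.tr {p q r : ℝ × ℝ} (h : R p q) (k : R q r) : R p r := by
  obtain rfl | h := h
  · exact k
  obtain rfl | k := k
  exacts [Or.inr h, Or.inr ⟨h.1.trans k.1, h.2.trans k.2⟩]

lemma R.as {p q : ℝ × ℝ} (h : R p q) (k : R q p) : p = q :=
  h.elim id fun h => k.elim Eq.symm fun k => (h.1.not_gt k.1).elim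

section
variable {H : AddSubgroup ℝ} (hH : Dense (H : Set ℝ)) {A : ℝ → ℝ} (hA : Monotone A)
  (hC : Continuous A)

def ph (A : ℝ → ℝ) (p : ℝ × ℝ) : ℝ := p.1 - A p.1 - A (p.1 + p.2)

include hH hC in
lemma pick {c d : ℝ → ℝ} (hc : Continuous c) (hd : Continuous d) {p q : ℝ × ℝ} (h1 : p.2 ≤ q.2)
    (hp : p.2 ∈ H) (hq : q.2 ∈ H) (h : ph A p < ph A q) (h2 : ∀ w, ph A (d w, w) ≤ ph A (c w, w)) :
    ∃ w ∈ H, w ∈ Icc p.2 q.2 ∧ (w = p.2 ∨ ph A p < ph A (c w, w)) ∧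
      (w = q.2 ∨ ph A (d w, w) < ph A q) ∧ (ph A p < ph A (c w, w) ∨ ph A (d w, w) < ph A q) := by
  have h3 (w) : ph A p < ph A (c w, w) ∨ ph A (d w, w) < ph A q :=
    (lt_or_ge _ _).imp_right fun k => ((h2 w).trans k).trans_lt h
  by_cases k1 : ph A p < ph A (c p.2, p.2)
  swap
  · exact ⟨_, hp, left_mem_Icc.2 h1, Or.inl rfl, Or.inr ((h3 _).resolve_left k1), h3 _⟩
  by_cases k2 : ph A (d q.2, q.2) < ph A q
  swap
  · exact ⟨_, hq, right_mem_Icc.2 h1, Or.inr ((h3 _).resolve_right k2), Or.inl rfl, h3 _⟩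
  obtain k3 | k3 := h1.eq_or_lt
  · exact ⟨_, hp, left_mem_Icc.2 h1, Or.inl rfl, Or.inl k3, h3 _⟩
  have o1 : IsOpen {w | ph A p < ph A (c w, w)} := isOpen_lt continuous_const (by unfold ph; fun_prop)
  have o2 : IsOpen {w | ph A (d w, w) < ph A q} := isOpen_lt (by unfold ph; fun_prop) continuous_const
  obtain ⟨w, w1, w2⟩ := isPreconnected_Icc _ _ o1 o2 (fun w _ => h3 w) ⟨_, left_mem_Icc.2 h1, k1⟩
    ⟨_, right_mem_Icc.2 h1, k2⟩
  rw [← closure_Ioo k3.ne] at w1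
  obtain ⟨v, v1, v2, v3⟩ := hH.exists_mem_open ((o1.inter o2).inter isOpen_Ioo)
    (mem_closure_iff.1 w1 _ (o1.inter o2) w2)
  exact ⟨v, v1, Ioo_subset_Icc_self v3, Or.inr v2.1, Or.inr v2.2, h3 _⟩

def Ok (A : ℝ → ℝ) (p q : ℝ × ℝ) : Prop := p.1 < q.1 ∧ p.2 ≤ q.2 ∧ ph A p < ph A q

include hH hA hC in
lemma split (κ : Bool) {α β : ℝ} (hJ : ∀ x y, α ≤ x → x ≤ y → y ≤ β → y - x ≤ A y - A x)
    (hαβ : α ≤ β) {p q : ℝ × ℝ} (hp : p.2 ∈ H) (hq : q.2 ∈ H) (h : Ok A p q) :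
    ∃ c d w, w ∈ H ∧ c ≤ d ∧ ((c, w) = p ∨ Ok A p (c, w)) ∧ ((d, w) = q ∨ Ok A (d, w) q) ∧
      ∀ x ∈ Icc α β, p.1 + κ.toNat * p.2 < x → x < q.1 + κ.toNat * q.2 →
        x - κ.toNat * w ∈ Icc c d := by
  obtain ⟨a, u⟩ := p
  obtain ⟨b, v⟩ := q
  obtain ⟨h1, h2, h3⟩ := h
  dsimp only at h1 h2 hp hq ⊢
  have k0 (y) {s t : ℝ} (h : s ≤ t) : ph A (y, t) ≤ ph A (y, s) :=
    sub_le_sub_left (hA (add_le_add_right h y)) _
  obtain ⟨w, w1, ⟨w2, w3⟩, w4, w5, w6⟩ := pick hH hC (c := fun w => max a (min b (α - κ.toNat * w)))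
    (d := fun w => max a (min b (β - κ.toNat * w))) (by fun_prop) (by fun_prop) h2 hp hq h3 fun w => by
      have k1 : max a (min b (α - κ.toNat * w)) ≤ max a (min b (β - κ.toNat * w)) := by gcongr
      obtain k2 | k2 := k1.eq_or_lt
      · rw [k2]
      have k3 : α - κ.toNat * w ≤ max a (min b (α - κ.toNat * w)) := by grind
      have k4 : max a (min b (β - κ.toNat * w)) ≤ β - κ.toNat * w := by grind
      generalize max a (min b (α - κ.toNat * w)) = c at *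
      generalize max a (min b (β - κ.toNat * w)) = d at *
      cases κ <;> simp only [ph, Bool.toNat_false, Bool.toNat_true, Nat.cast_zero, Nat.cast_one] at *
      · linarith [hJ c d (by linarith) k1 (by linarith), hA (add_le_add_left k1 w)]
      · linarith [hJ (c + w) (d + w) (by linarith) (by linarith) (by linarith), hA k1]
  dsimp only at w2 w3 w4 w5 w6
  have k1 : a ≤ max a (min b (α - κ.toNat * w)) := le_max_left _ _
  have k2 : max a (min b (β - κ.toNat * w)) ≤ b := max_le h1.le (min_le_left _ _)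
  have k3 : max a (min b (α - κ.toNat * w)) ≤ max a (min b (β - κ.toNat * w)) := by gcongr
  have k4 (k : ph A (a, u) < ph A (max a (min b (α - κ.toNat * w)), w)) :
      a < max a (min b (α - κ.toNat * w)) := k1.lt_of_ne fun e => (k0 a w2).not_gt (by rwa [← e] at k)
  have k5 (k : ph A (max a (min b (β - κ.toNat * w)), w) < ph A (b, v)) :
      max a (min b (β - κ.toNat * w)) < b := k2.lt_of_ne fun e => (k0 b w3).not_gt (by rwa [e] at k)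
  by_cases c1 : ph A (a, u) < ph A (max a (min b (α - κ.toNat * w)), w) <;>
    by_cases c2 : ph A (max a (min b (β - κ.toNat * w)), w) < ph A (b, v)
  · refine ⟨_, _, w, w1, k3, Or.inr ⟨k4 c1, w2, c1⟩, Or.inr ⟨k5 c2, w3, c2⟩, fun x hx _ _ => ?_⟩
    have := k4 c1
    have := k5 c2
    grind
  · obtain rfl := w5.resolve_right c2
    refine ⟨_, b, w, w1, k3.trans k2, Or.inr ⟨k4 c1, w2, c1⟩, Or.inl rfl, fun x hx _ _ => ?_⟩
    have := k4 c1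
    grind
  · obtain rfl := w4.resolve_right c1
    refine ⟨a, _, w, w1, k1.trans k3, Or.inl rfl, Or.inr ⟨k5 c2, w3, c2⟩, fun x hx _ _ => ?_⟩
    have := k5 c2
    grind
  · exact (w6.elim c1 c2).elim

def Gap (A : ℝ → ℝ) (S : Set (ℝ × ℝ)) (p q : ℝ × ℝ) : Prop :=
  p ∈ S ∧ q ∈ S ∧ Ok A p q ∧ ∀ r ∈ S, R r p ∨ R q r

def Inv (H : AddSubgroup ℝ) (A : ℝ → ℝ) (S : Set (ℝ × ℝ)) : Prop :=
  (∀ p ∈ S, p.2 ∈ H) ∧ (∀ p ∈ S, ∀ q ∈ S, R p q ∨ R q p) ∧ ∀ (κ : Bool) (x : ℝ),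
    (∃ p ∈ S, p.1 + κ.toNat * p.2 = x) ∨
      ∃ p q, Gap A S p q ∧ p.1 + κ.toNat * p.2 < x ∧ x < q.1 + κ.toNat * q.2

include hH hA hC in
lemma step (κ : Bool) {α β : ℝ} (hJ : ∀ x y, α ≤ x → x ≤ y → y ≤ β → y - x ≤ A y - A x)
    (hαβ : α ≤ β) {S : Set (ℝ × ℝ)} (h : Inv H A S) :
    ∃ T, Inv H A T ∧ S ⊆ T ∧ ∀ x ∈ Icc α β, ∃ p ∈ T, p.1 + κ.toNat * p.2 = x := by
  choose c d w h1 h2 h3 h4 h5 using fun g : {g : (ℝ × ℝ) × ℝ × ℝ // Gap A S g.1 g.2} =>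
    split hH hA hC κ hJ hαβ (h.1 _ g.2.1) (h.1 _ g.2.2.1) g.2.2.2.1
  have o {p q} (h : Ok A p q) : R p q := Or.inr ⟨h.1, h.2.1⟩
  have s {x y z : ℝ} (h : x ≤ y) : R (x, z) (y, z) := h.eq_or_lt.imp (by rintro rfl; rfl) (⟨·, le_rfl⟩)
  have l (g) {y} (hy : y ∈ Icc (c g) (d g)) : R g.1.1 (y, w g) ∧ R (y, w g) g.1.2 :=
    ⟨R.tr ((h3 g).elim (Or.inl ·.symm) o) (s hy.1), (s hy.2).tr ((h4 g).elim Or.inl o)⟩
  let T := S ∪ {p | ∃ g, ∃ y ∈ Icc (c g) (d g), p = (y, w g)}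
  have k (g) : ∀ r ∈ T, R r g.1.1 ∨ R g.1.2 r ∨ ∃ y ∈ Icc (c g) (d g), r = (y, w g) := by
    rintro r (hr | ⟨g', y, hy, rfl⟩)
    · exact (g.2.2.2.2 r hr).imp_right Or.inl
    obtain k1 | k1 := g.2.2.2.2 _ g'.2.2.1
    · exact Or.inl ((l g' hy).2.tr k1)
    obtain k2 | k2 := g.2.2.2.2 _ g'.2.1
    swap
    · exact Or.inr (Or.inl (k2.tr (l g' hy).1))
    have n (g : {g : (ℝ × ℝ) × ℝ × ℝ // Gap A S g.1 g.2}) (h : R g.1.2 g.1.1) : False :=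
      g.2.2.2.1.1.ne (congrArg Prod.fst ((o g.2.2.2.1).as h))
    obtain k3 | k3 := g'.2.2.2.2 _ g.2.1
    swap
    · exact Or.inl ((l g' hy).2.tr k3)
    obtain k4 | k4 := g'.2.2.2.2 _ g.2.2.1
    · exact Or.inr (Or.inl (k4.tr (l g' hy).1))
    obtain rfl : g = g' := Subtype.ext (Prod.ext (k3.as k2) (k1.as k4))
    exact Or.inr (Or.inr ⟨y, hy, rfl⟩)
  have m (g) {y} (hy : y ∈ Icc (c g) (d g)) : (y, w g) ∈ T := Or.inr ⟨g, y, hy, rfl⟩
  have k' (g) {y} (hy : y ∈ Icc (c g) (d g)) : ∀ r ∈ T, R r (y, w g) ∨ R (y, w g) r := fun r hr => by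
    obtain k1 | k1 | ⟨z, -, rfl⟩ := k g r hr
    exacts [Or.inl (k1.tr (l g hy).1), Or.inr ((l g hy).2.tr k1), (le_total z y).imp s s]
  refine ⟨T, ⟨?_, ?_, fun ι x => ?_⟩, subset_union_left, fun x hx => ?_⟩
  · rintro p (hp | ⟨g, y, -, rfl⟩)
    exacts [h.1 p hp, h1 g]
  · rintro p (hp | ⟨g, y, hy, rfl⟩) q hq
    · obtain hq | ⟨g, y, hy, rfl⟩ := hq
      exacts [h.2.1 p hp q hq, k' g hy p (Or.inl hp)]
    · exact (k' g hy q hq).symm
  · obtain ⟨p, k1, k2⟩ | ⟨p, q, k1, k2, k3⟩ := h.2.2 ι x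
    · exact Or.inl ⟨p, Or.inl k1, k2⟩
    let g : {g : (ℝ × ℝ) × ℝ × ℝ // Gap A S g.1 g.2} := ⟨(p, q), k1⟩
    have lc := left_mem_Icc.2 (h2 g)
    have rc := right_mem_Icc.2 (h2 g)
    by_cases k4 : x < c g + ι.toNat * w g
    · refine Or.inr ⟨p, (c g, w g), ⟨Or.inl k1.1, m g lc, (h3 g).resolve_left fun e => ?_,
        fun r hr => (k g r hr).imp_right ?_⟩, k2, k4⟩
      · exact k4.not_gt (by rw [← show (c g, w g) = p from e] at k2; exact k2)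
      · rintro (h | ⟨y, hy, rfl⟩)
        exacts [(l g lc).2.tr h, s hy.1]
    by_cases k5 : d g + ι.toNat * w g < x
    · refine Or.inr ⟨(d g, w g), q, ⟨m g rc, Or.inl k1.2.1, (h4 g).resolve_left fun e => ?_,
        fun r hr => ?_⟩, k5, k3⟩
      · exact k5.not_gt (by rw [← show (d g, w g) = q from e] at k3; exact k3)
      · obtain h | h | ⟨y, hy, rfl⟩ := k g r hr
        exacts [Or.inl (h.tr (l g rc).1), Or.inr h, Or.inl (s hy.2)]
    exact Or.inl ⟨_, m g (y := x - ι.toNat * w g) ⟨by linarith, by linarith⟩, sub_add_cancel _ _⟩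
  · obtain ⟨p, k1, k2⟩ | ⟨p, q, k1, k2, k3⟩ := h.2.2 κ x
    · exact ⟨p, Or.inl k1, k2⟩
    exact ⟨_, m ⟨(p, q), k1⟩ (h5 _ x hx k2 k3), sub_add_cancel _ _⟩

end

lemma exA {H : Set ℝ} (h0 : volume H = 0) : ∃ (O : Set ℝ) (A : ℝ → ℝ), H ⊆ O ∧ IsOpen O ∧
    Monotone A ∧ Continuous A ∧ (∀ x, 0 ≤ A x ∧ A x ≤ 1) ∧
      ∀ x y, x ≤ y → Ioc x y ⊆ O → y - x ≤ A y - A x := by
  obtain ⟨O, o1, o2, o3⟩ := H.exists_isOpen_lt_of_lt (μ := volume) (ENNReal.ofReal 1)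
    (by simp [h0])
  let A (x : ℝ) := volume.real (O ∩ Iic x)
  have a0 (s) : volume (O ∩ s) ≠ ⊤ := ((measure_mono inter_subset_left).trans_lt
    (o3.trans ENNReal.ofReal_lt_top)).ne
  have a1 {x y} (h : x ≤ y) : A y - A x = volume.real (O ∩ Ioc x y) := by
    simp only [A]
    rw [← Iic_union_Ioc_eq_Iic h, inter_union_distrib_left, measureReal_union
      (Iic_disjoint_Ioc le_rfl |>.mono inter_subset_right inter_subset_right)
      (o2.measurableSet.inter measurableSet_Ioc) (a0 _) (a0 _), add_sub_cancel_left]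
  have a2 : Monotone A := fun x y h => sub_nonneg.1 (a1 h ▸ measureReal_nonneg)
  have a3 : Continuous A := by
    refine (LipschitzWith.of_le_add fun x y => ?_).continuous
    obtain h | h := le_total x y
    · exact (a2 h).trans (le_add_of_nonneg_right dist_nonneg)
    · rw [← sub_le_iff_le_add', a1 h, Real.dist_eq, abs_of_nonneg (sub_nonneg.2 h),
        ← Real.volume_real_Ioc_of_le h]
      exact measureReal_mono inter_subset_right (by simp)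
  have a4 (x) : A x ≤ 1 := ENNReal.toReal_le_of_le_ofReal zero_le_one
    ((measure_mono inter_subset_left).trans o3.le)
  exact ⟨O, A, o1, o2, a2, a3, fun x => ⟨measureReal_nonneg, a4 x⟩, fun x y h k => by
    rw [a1 h, inter_eq_self_of_subset_right k, Real.volume_real_Ioc_of_le h]⟩

lemma r1 {p q : ℝ × ℝ} (h : R p q ∨ R q p) : (p.1 + p.2 = q.1 + q.2 → p.1 = q.1) ∧
    (p.1 = q.1 → p.1 + p.2 = q.1 + q.2) ∧ |p.1 - q.1| ≤ |p.1 + p.2 - (q.1 + q.2)| := by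
  unfold R at h
  grind

lemma r2 {L h : ℝ} (h1 : 2 < L) (h2 : 0 < h) :
    (∀ r ∈ Iic (0 : ℝ) ×ˢ {(0 : ℝ)} ∪ Ici L ×ˢ {h}, R r (0, 0) ∨ R (L, h) r) ∧
    ∀ p ∈ Iic (0 : ℝ) ×ˢ {(0 : ℝ)} ∪ Ici L ×ˢ {h}, ∀ q ∈ Iic (0 : ℝ) ×ˢ {(0 : ℝ)} ∪ Ici L ×ˢ {h},
      R p q ∨ R q p := by
  unfold R
  grind

theorem main {H : AddSubgroup ℝ} (hH : Dense (H : Set ℝ)) (h0 : volume (H : Set ℝ) = 0) :
    ∃ f : H → H, f.Bijective ∧ (∀ x y, dist (f x) (f y) ≤ dist x y) ∧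
      ¬ ∀ x y, dist (f x) (f y) = dist x y := by
  obtain ⟨O, A, o1, o2, a2, a3, a4, a1⟩ := exA h0
  obtain ⟨h, h1, h2⟩ := hH.exists_mem_open isOpen_Ioi (nonempty_Ioi (a := 0))
  obtain ⟨L, l1, l2⟩ := hH.exists_mem_open isOpen_Ioi (nonempty_Ioi (a := 2))
  have i0 : Inv H A (Iic 0 ×ˢ {0} ∪ Ici L ×ˢ {h}) := by
    refine ⟨fun p hp => hp.elim (·.2 ▸ H.zero_mem) (·.2 ▸ h1), (r2 l2 h2).2, fun κ x => ?_⟩
    by_cases k1 : x ≤ 0
    · exact Or.inl ⟨(x, 0), Or.inl ⟨k1, rfl⟩, by simp⟩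
    by_cases k2 : L ≤ x - κ.toNat * h
    · exact Or.inl ⟨(_, h), Or.inr ⟨k2, rfl⟩, by simp⟩
    refine Or.inr ⟨(0, 0), (L, h), ⟨Or.inl ⟨self_mem_Iic, rfl⟩, Or.inr ⟨self_mem_Ici, rfl⟩,
      ⟨zero_lt_two.trans l2, le_of_lt h2, ?_⟩, (r2 l2 h2).1⟩, by simpa using k1,
      by simpa [sub_lt_iff_lt_add] using k2⟩
    simp only [ph, add_zero]
    linarith [(a4 0).1, (a4 L).2, (a4 (L + h)).2, mem_Ioi.1 l2]
  obtain ⟨t, ht⟩ := exists_surjective_nat (Bool × ℚ × ℚ)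
  have st (n : ℕ) (S) (hS : Inv H A S) : ∃ T, Inv H A T ∧ S ⊆ T ∧ (Icc ((t n).2.1 : ℝ) (t n).2.2 ⊆ O →
      ∀ x ∈ Icc ((t n).2.1 : ℝ) (t n).2.2, ∃ p ∈ T, p.1 + (t n).1.toNat * p.2 = x) := by
    by_cases k : Icc ((t n).2.1 : ℝ) (t n).2.2 ⊆ O ∧ ((t n).2.1 : ℝ) ≤ (t n).2.2
    · exact (step hH a2 a3 (t n).1 (fun x y k1 k2 k3 => a1 x y k2 fun z hz =>
        k.1 ⟨k1.trans hz.1.le, hz.2.trans k3⟩) k.2 hS).imp fun T h => ⟨h.1, h.2.1, fun _ => h.2.2⟩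
    · exact ⟨S, hS, subset_rfl, fun k1 x hx => (k ⟨k1, hx.1.trans hx.2⟩).elim⟩
  choose! F f1 f2 f3 using st
  let S : ℕ → Set (ℝ × ℝ) := Nat.rec (Iic 0 ×ˢ {0} ∪ Ici L ×ˢ {h}) F
  have s1 (n) : Inv H A (S n) := n.rec i0 fun n => f1 n _
  have s2 : Monotone S := monotone_nat_of_le_succ fun n => f2 n _ (s1 n)
  have s3 {m n p q} (hp : p ∈ S m) (hq : q ∈ S n) : R p q ∨ R q p :=
    (s1 (max m n)).2.1 p (s2 (le_max_left _ _) hp) q (s2 (le_max_right _ _) hq)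
  have s4 (κ : Bool) (x : H) : ∃ n, ∃ p ∈ S n, p.1 + κ.toNat * p.2 = x := by
    obtain ⟨a, b, k1, k2⟩ := mem_nhds_iff_exists_Ioo_subset.1 (o2.mem_nhds (o1 x.2))
    obtain ⟨r, r1, r2⟩ := exists_rat_btwn k1.1
    obtain ⟨s, r3, r4⟩ := exists_rat_btwn k1.2
    obtain ⟨n, hn⟩ := ht (κ, r, s)
    have := f3 n _ (s1 n)
    rw [hn] at this
    exact ⟨n + 1, this ((Icc_subset_Ioo r1 r4).trans k2) x ⟨r2.le, r3.le⟩⟩
  choose n p p1 p2 using s4 true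
  simp only [Bool.toNat_true, Nat.cast_one, one_mul] at p2
  have p3 {m q} (hq : q ∈ S m) (x : H) (e : q.1 + q.2 = x) : (p x).1 = q.1 :=
    (r1 (s3 (p1 x) hq)).1 ((p2 x).trans e.symm)
  refine ⟨fun x => ⟨(p x).1, eq_sub_of_add_eq (p2 x) ▸ H.sub_mem x.2 ((s1 _).1 _ (p1 x))⟩,
    ⟨fun x y e => Subtype.ext ?_, fun y => ?_⟩, fun x y => ?_, fun k => ?_⟩
  · rw [← p2, ← p2]
    exact (r1 (s3 (p1 x) (p1 y))).2.1 (congrArg Subtype.val e)
  · obtain ⟨m, q, k1, k2⟩ := s4 false y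
    exact ⟨⟨q.1 + q.2, H.add_mem (by simpa [← k2] using y.2) ((s1 m).1 q k1)⟩,
      Subtype.ext ((p3 k1 _ rfl).trans (by simpa using k2))⟩
  · simp only [Subtype.dist_eq, Real.dist_eq, ← p2]
    exact (r1 (s3 (p1 x) (p1 y))).2.2
  · have := k ⟨L + h, H.add_mem l1 h1⟩ 0
    simp only [Subtype.dist_eq, Real.dist_eq] at this
    rw [p3 (m := 0) (q := (L, h)) (Or.inr ⟨self_mem_Ici, rfl⟩) _ rfl,
      p3 (m := 0) (q := (0, 0)) (Or.inl ⟨self_mem_Iic, rfl⟩) _ (by simp)] at this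
    simp only [sub_zero, ZeroMemClass.coe_zero] at this
    rw [abs_of_pos (zero_lt_two.trans l2), abs_of_pos (add_pos (zero_lt_two.trans l2) h2)] at this
    linarith [mem_Ioi.1 h2]

lemma half : ∃ f : (⊤ : AddSubgroup ℝ) → (⊤ : AddSubgroup ℝ), f.Bijective ∧
    (∀ x y, dist (f x) (f y) ≤ dist x y) ∧ ¬ ∀ x y, dist (f x) (f y) = dist x y := by
  refine ⟨fun x => ⟨x / 2, trivial⟩, ⟨fun x y h => Subtype.ext ?_, fun y => ⟨⟨y * 2, trivial⟩,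
    Subtype.ext (by simp)⟩⟩, fun x y => ?_, fun h => ?_⟩
  · linarith [show x.1 / 2 = y.1 / 2 from congrArg Subtype.val h]
  · simp only [Subtype.dist_eq, Real.dist_eq]
    grind
  · have := h ⟨1, trivial⟩ 0
    norm_num [Subtype.dist_eq, Real.dist_eq] at this

lemma top {H : AddSubgroup ℝ} {K : Set ℝ} (hK : IsCompact K) (h1 : K ⊆ H) (h2 : volume K ≠ 0) :
    H = ⊤ := by
  have h3 : (H : Set ℝ) ∈ 𝓝 0 := mem_of_superset (Measure.sub_mem_nhds_zero_of_addHaar_pos volume K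
    hK.measurableSet h2.bot_lt) (sub_subset_iff.2 fun x hx y hy => H.sub_mem (h1 hx) (h1 hy))
  have h4 := H.isOpen_of_mem_nhds h3
  exact SetLike.coe_injective (IsClopen.eq_univ ⟨H.isClosed_of_isOpen h4, h4⟩ ⟨0, H.zero_mem⟩)

lemma inner {s : Set ℝ} (h : AnalyticSet s) (h0 : volume s ≠ 0) :
    ∃ K ⊆ s, IsCompact K ∧ volume K ≠ 0 := by
  rw [AnalyticSet] at h
  obtain rfl | ⟨f, hf, rfl⟩ := h
  · exact (h0 measure_empty).elim
  obtain ⟨N, hN⟩ : ∃ N : ℕ, volume.restrict (Icc (-N : ℝ) N) (range f) ≠ 0 := by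
    by_contra! k
    refine h0 (measure_mono_null (fun x hx => ?_) (measure_iUnion_null fun N : ℕ =>
      (Measure.restrict_apply' measurableSet_Icc).symm.trans (k N)))
    exact mem_iUnion.2 ((exists_nat_ge |x|).imp fun N h => ⟨hx, abs_le.1 h⟩)
  generalize hν : volume.restrict (Icc (-N : ℝ) N) = ν at hN
  have : IsFiniteMeasure ν := hν ▸ inferInstance
  obtain ⟨c, c1, c2⟩ := exists_between hN.bot_lt
  have k1 (n : ℕ) (S : Set (ℕ → ℕ)) (h : c < ν (f '' S)) : ∃ b, c < ν (f '' (S ∩ {x | x n ≤ b})) := by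
    have m : Monotone fun b => f '' (S ∩ {x | x n ≤ b}) := fun a b h =>
      image_mono (inter_subset_inter_right _ fun x k => le_trans k h)
    rwa [← lt_iSup_iff, ← m.measure_iUnion, ← image_iUnion, ← inter_iUnion,
      inter_eq_self_of_subset_left fun x _ => mem_iUnion.2 ⟨x n, le_refl (x n)⟩]
  choose! g k1 using k1
  let S : ℕ → Set (ℕ → ℕ) := Nat.rec univ fun n S => S ∩ {x | x n ≤ g n S}
  have k2 (n) : c < ν (f '' S n) := n.rec (image_univ ▸ c2) fun n => k1 n _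
  have k3 : Antitone S := antitone_nat_of_succ_le fun n => inter_subset_left
  have k4 : ⋂ n, closure (f '' S n) ⊆ range f := fun y hy => by
    choose z z1 z2 using fun n : ℕ => Metric.mem_closure_iff.1 (mem_iInter.1 hy n) _
      (Nat.one_div_pos_of_nat (n := n))
    choose x x1 x2 using z1
    obtain ⟨a, -, φ, k4, k5⟩ := (isCompact_univ_pi fun i => ((finite_Iic (g i (S i))).union
      ((finite_Iic i).image fun n => x n i)).isCompact).tendsto_subseq (x := x) fun n i _ =>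
        (lt_or_ge i n).imp (fun h => (k3 (Nat.succ_le_of_lt h) (x1 n)).2) fun h => ⟨n, h, rfl⟩
    refine ⟨a, tendsto_nhds_unique ((hf.tendsto a).comp k5) (tendsto_iff_dist_tendsto_zero.2
      (squeeze_zero (fun _ => dist_nonneg) (fun n => ?_)
        (tendsto_one_div_add_atTop_nhds_zero_nat.comp k4.tendsto_atTop)))⟩
    rw [dist_comm]
    exact (x2 (φ n) ▸ z2 (φ n)).le
  refine ⟨(⋂ n, closure (f '' S n)) ∩ Icc (-N : ℝ) N, inter_subset_left.trans k4,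
    isCompact_Icc.inter_left (isClosed_iInter fun _ => isClosed_closure), ?_⟩
  rw [← Measure.restrict_apply' measurableSet_Icc, hν, Antitone.measure_iInter
    (fun a b h => closure_mono (image_mono (k3 h)))
    (fun _ => isClosed_closure.measurableSet.nullMeasurableSet) ⟨0, measure_ne_top _ _⟩]
  exact (c1.trans_le (le_iInf fun n => (k2 n).le.trans (measure_mono subset_closure))).ne'

theorem analytic {H : AddSubgroup ℝ} (hH : Dense (H : Set ℝ)) (h0 : AnalyticSet (H : Set ℝ)) :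
    ∃ f : H → H, f.Bijective ∧ (∀ x y, dist (f x) (f y) ≤ dist x y) ∧
      ¬ ∀ x y, dist (f x) (f y) = dist x y := by
  by_cases h : volume (H : Set ℝ) = 0
  · exact main hH h
  obtain ⟨K, h1, h2, h3⟩ := inner h0 h
  obtain rfl := top h2 h1 h3
  exact half

end Pool.Agent.H.MP_fc2771_gt
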